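import Pool.Agent.Y192.FA.StB
import Pool.Agent.Y141.OG.Cl1

/-!
The estimate for a minimal relation over function fields, general form.
-/

set_option autoImplicit false

namespace Pool.Agent.Y155.FA

open Filter Set Topology FF Pool.Agent.Y192.FA

variable {N : ℕ} {c : Curve N} {F : c.Mr}

theorem iter_add (c : Curve N) (l : ℕ) (f g : c.Mr) :
    (c.Dr : c.Mr → c.Mr)^[l] (f + g) = (c.Dr : c.Mr → c.Mr)^[l] f + (c.Dr : c.Mr → c.Mr)^[l] g := by
  induction l generalizing f g with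
  | zero => rfl
  | succ l ih => rw [Function.iterate_succ_apply, map_add, ih]; rfl

theorem iter_zero (c : Curve N) (l : ℕ) : (c.Dr : c.Mr → c.Mr)^[l] 0 = 0 := by
  induction l with
  | zero => rfl
  | succ l ih => rw [Function.iterate_succ_apply, map_zero, ih]

theorem iter_sum (c : Curve N) (l : ℕ) {ι : Type} (s : Finset ι) (f : ι → c.Mr) :
    (c.Dr : c.Mr → c.Mr)^[l] (∑ i ∈ s, f i) = ∑ i ∈ s, (c.Dr : c.Mr → c.Mr)^[l] (f i) := by
  classical
  induction s using Finset.induction_on with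
  | empty => simp [iter_zero c]
  | insert a s ha ih => rw [Finset.sum_insert ha, Finset.sum_insert ha, iter_add, ih]

theorem wrd_omit (c : Curve N) (hdom : IsDomain c.Mr) {k : ℕ} (e : Fin (k + 1) → c.Mr)
    (he : ∑ i, e i = 0) (a : Fin (k + 1)) :
    ∃ x : ℂ, c.wrd (fun i : Fin k => e i.succ) = x • c.wrd (fun i => e (a.succAbove i)) := by
  have h := Pool.Agent.Y141.OG.det_omit'
    (fun (l : Fin k) j => (c.Dr : c.Mr → c.Mr)^[(l : ℕ)] (e j))
    (fun l => by rw [← iter_sum, he, iter_zero]) a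
  have h1 : ∀ g : Fin k → c.Mr, c.wrd g =
      (Matrix.of fun l b : Fin k => (c.Dr : c.Mr → c.Mr)^[(l : ℕ)] (g b)).det := by
    intro g
    unfold Curve.wrd
    rw [← Matrix.det_transpose]
    rfl
  rw [← h1, ← h1] at h
  rcases h with h | h
  · exact ⟨1, by rw [one_smul, h]⟩
  · refine ⟨-1, ?_⟩
    rw [neg_smul, one_smul]
    exact eq_neg_of_add_eq_zero_left h

theorem dom_of (hr : St_ring) (c : Curve N) : IsDomain c.Mr := by
  obtain ⟨h1, h2, -, -⟩ := hr N c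
  have : Nontrivial c.Mr := h2
  have h3 : NoZeroDivisors c.Mr := ⟨fun {a b} h => h1 a b h⟩
  exact NoZeroDivisors.to_isDomain _

/-- order at a place -/
theorem ordb (hr : St_ring) (ho : St_ord) (hw : St_wr) (r : Rad c F) (Φ : Finset (Fin N → ℤ))
    (w k : ℕ) (e : Fin (k + 1) → c.Mr) (he : ∑ i, e i = 0) (lm : Fin (k + 1) → c.P → ℝ)
    (nu : Fin (k + 1) → c.P → ℤ) (hc : ∀ i, Ctl r (e i) (lm i) (nu i) Φ w)
    (hW : c.wrd (fun i : Fin k => e i.succ) ≠ 0) (z : c.P) (hz : z ∈ c.E) (a : Fin (k + 1)) :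
    ∑ l, nu l z - nu a z - k * w * (∑ φ ∈ Φ, |c.del z φ| + c.bad z) -
      (k : ℤ) ^ 2 * max 1 (c.bad z) ≤
      (c.ord z (c.wrd (fun i : Fin k => e i.succ))).untop₀ := by
  obtain ⟨x, hx'⟩ := wrd_omit c (dom_of hr c) e he a
  have h1 := (hw N c k (fun i => e (a.succAbove i))).2.1 z hz
    (fun j => nu (a.succAbove j) z - w * (∑ φ ∈ Φ, |c.del z φ| + c.bad z))
    (fun j => (hc (a.succAbove j)).2 z hz)
  have h2 := (ho N c).1 z hz
  have h3 : c.ord z (c.wrd (fun i => e (a.succAbove i))) ≤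
      c.ord z (c.wrd (fun i : Fin k => e i.succ)) := by
    rw [hx']
    exact h2.2.2.1 _ _
  have h4 : c.ord z (c.wrd (fun i : Fin k => e i.succ)) ≠ ⊤ := (hr N c).2.2.2 _ hW z hz
  have h5 := h1.trans h3
  rw [← WithTop.coe_untop₀_of_ne_top h4, WithTop.coe_le_coe] at h5
  refine le_trans (le_of_eq ?_) h5
  rw [Finset.sum_sub_distrib, Finset.sum_const, Finset.card_univ, Fintype.card_fin,
    Fin.sum_univ_succAbove _ a]
  simp only [nsmul_eq_mul]
  ring

/-- the comparison of orders -/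
theorem ordd (hr : St_ring) (ho : St_ord) (hw : St_wr) (r : Rad c F)
    (Φ : Finset (Fin N → ℤ)) (w k : ℕ)
    (e : Fin (k + 1) → c.Mr) (he : ∑ i, e i = 0) (lm : Fin (k + 1) → c.P → ℝ)
    (nu : Fin (k + 1) → c.P → ℤ)
    (hc : ∀ i, Ctl r (e i) (lm i) (nu i) Φ w)
    (hW : c.wrd (fun i : Fin k => e i.succ) ≠ 0)
    (hU : ∀ z ∈ c.U, ∀ i, nu i z = nu 0 z ∧ 0 ≤ nu i z) (Nv : c.P → ℝ)
    (hN : ∀ z ∈ c.E, ∃ i, (nu i z : ℝ) ≤ Nv z) (z : c.P) (hz : z ∈ c.E) :
    ∑ l, ((nu l z : ℤ) : ℝ) - Nv z - k * w * ∑ φ ∈ Φ, ((|c.del z φ| : ℤ) : ℝ)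
      - (k * w + k ^ 2) * ((c.bad z : ℤ) : ℝ) ≤
      ((c.ord z (c.wrd (fun i : Fin k => e i.succ))).untop₀ : ℤ) := by
  obtain ⟨i, hi⟩ := hN z hz
  by_cases hzU : z ∈ c.U
  · have hd : ∀ m' : Fin N → ℤ, c.del z m' = 0 := (ho N c).2.1 z hzU
    have hbad : c.bad z = 0 := (ho N c).2.2.1 z hzU
    obtain ⟨v, hv⟩ := Int.eq_ofNat_of_zero_le (hU z hzU 0).2
    have hnu : ∀ l, nu l z = (v : ℤ) := fun l => by rw [(hU z hzU l).1, hv]
    have h1 := (hw N c k (fun i => e i.succ)).2.2 z hzU v (by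
      intro j
      have h2 := (hc j.succ).2 z hz
      simp only [hd, hbad, abs_zero, Finset.sum_const_zero, add_zero, mul_zero, sub_zero] at h2
      rw [hnu] at h2
      exact_mod_cast h2)
    have h4 : c.ord z (c.wrd (fun i : Fin k => e i.succ)) ≠ ⊤ := (hr N c).2.2.2 _ hW z hz
    have h5 : ((k * v : ℕ) : ℤ) ≤ (c.ord z (c.wrd (fun i : Fin k => e i.succ))).untop₀ := by
      rw [← WithTop.coe_untop₀_of_ne_top h4] at h1
      exact WithTop.coe_le_coe.mp h1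
    have h6 : ((k * v : ℕ) : ℝ) ≤
        ((c.ord z (c.wrd (fun i : Fin k => e i.succ))).untop₀ : ℤ) := by exact_mod_cast h5
    have h7 : ((v : ℕ) : ℝ) ≤ Nv z := by
      rw [hnu] at hi
      exact_mod_cast hi
    refine le_trans ?_ h6
    simp only [hd, hbad, hnu, abs_zero, Int.cast_zero, Finset.sum_const_zero, mul_zero, sub_zero,
      Finset.sum_const, Finset.card_univ, Fintype.card_fin, nsmul_eq_mul]
    push_cast
    linarith
  · have hbad : max 1 (c.bad z) = c.bad z := max_eq_right (((ho N c).2.2.2.1 z).2 hzU)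
    have h1 := ordb hr ho hw r Φ w k e he lm nu hc hW z hz i
    rw [hbad] at h1
    have h2 : ((∑ l, nu l z - nu i z - k * w * (∑ φ ∈ Φ, |c.del z φ| + c.bad z) -
        (k : ℤ) ^ 2 * c.bad z : ℤ) : ℝ)
        ≤ ((c.ord z (c.wrd (fun i : Fin k => e i.succ))).untop₀ : ℤ) := by exact_mod_cast h1
    refine le_trans ?_ h2
    push_cast
    have h3 : ∑ φ ∈ Φ, ((|c.del z φ| : ℤ) : ℝ) = ∑ φ ∈ Φ, |((c.del z φ : ℤ) : ℝ)| :=
      Finset.sum_congr rfl fun φ _ => by push_cast; rfl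
    have h4 : (k * w : ℝ) * (∑ φ ∈ Φ, |((c.del z φ : ℤ) : ℝ)| + (c.bad z : ℝ)) =
      (k * w : ℝ) * ∑ φ ∈ Φ, |((c.del z φ : ℤ) : ℝ)| + k * w * (c.bad z : ℝ) := by ring
    rw [h4]
    linarith

/-- divisors with a given counting function -/
def Pc (c : Curve N) (R : ℝ) (E : c.P → ℝ) (v : ℝ) : Prop := c.LocFin E ∧ c.cnt E R = v

theorem Pc.add (h : St_cnt) {R : ℝ} {f g : c.P → ℝ} {v w : ℝ} (hf : Pc c R f v) (hg : Pc c R g w) :
    Pc c R (fun z => f z + g z) (v + w) := by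
  obtain ⟨h1, h2⟩ := (h N c).1 f g hf.1 hg.1
  exact ⟨h1, by rw [h2, hf.2, hg.2]⟩

theorem Pc.smul (h : St_cnt) {R : ℝ} {f : c.P → ℝ} {v : ℝ} (a : ℝ) (hf : Pc c R f v) :
    Pc c R (fun z => a * f z) (a * v) := by
  obtain ⟨h1, h2⟩ := (h N c).2.1 a f hf.1
  exact ⟨h1, by rw [h2, hf.2]⟩

theorem Pc.zero {R : ℝ} : Pc c R (fun _ => 0) 0 := by
  refine ⟨?_, ?_⟩
  · unfold Curve.LocFin
    simp [Function.support]
  · unfold Curve.cnt
    simp

theorem Pc.sum (h : St_cnt) {R : ℝ} {ι : Type} (s : Finset ι) {f : ι → c.P → ℝ} {v : ι → ℝ}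
    (hf : ∀ i ∈ s, Pc c R (f i) (v i)) : Pc c R (fun z => ∑ i ∈ s, f i z) (∑ i ∈ s, v i) := by
  classical
  induction s using Finset.induction_on with
  | empty => simpa using Pc.zero (c := c) (R := R)
  | insert a s ha ih =>
    simp only [Finset.sum_insert ha]
    exact (hf a (Finset.mem_insert_self _ _)).add h
      (ih fun i hi => hf i (Finset.mem_insert_of_mem hi))

theorem t_cl2 : St_ring → St_ord → St_cnt → St_jen → St_ht → St_wr → St_cl2 := by
  intro hr ho hcn hj hh hw N c F r Φ w k e lm nu Lm Nv hk hc he hli hU hlf hci hLm hLi hNv hNf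
  set W := c.wrd (fun i : Fin k => e i.succ) with hWdef
  have hW : W ≠ 0 := (hw N c k (fun i => e i.succ)).1 hli
  -- the estimate
  have key : ∀ n, Curve.cav (c := c) Lm 0 (r.s n) - c.cnt Nv (r.s n) ≤
      ∑ i, (Curve.cav (c := c) (lm i) 0 (r.s n) - c.cnt (fun z => (nu i z : ℤ)) (r.s n))
        + (k * w * ∑ φ ∈ Φ, c.ht φ (r.s n)
          + (k * w + k ^ 2) * c.cnt (fun z => (c.bad z : ℤ)) (r.s n)) := by
    intro n
    set R := r.s n with hR
    have pabs : ∀ m', Pc c R (fun z => (|c.del z m'| : ℤ)) (c.cnt (fun z => (|c.del z m'| : ℤ)) R) :=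
      fun m' => ⟨(hcn N c).2.2.2 _ _ ((ho N c).2.2.2.2.2.2.2 m') (fun z _ => by
        push_cast; rw [abs_abs]), rfl⟩
    have pnu : ∀ l, Pc c R (fun z => (nu l z : ℤ)) (c.cnt (fun z => (nu l z : ℤ)) R) :=
      fun l => ⟨hlf l, rfl⟩
    have pN : Pc c R Nv (c.cnt Nv R) := ⟨hNf, rfl⟩
    have pbad : Pc c R (fun z => (c.bad z : ℤ)) (c.cnt (fun z => (c.bad z : ℤ)) R) :=
      ⟨(ho N c).2.2.2.2.2.2.1, rfl⟩
    have pG := (((Pc.sum hcn (R := R) Finset.univ (fun l _ => pnu l)).add hcn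
      (pN.smul hcn (-1))).add hcn
      ((Pc.sum hcn (R := R) Φ (fun φ _ => pabs φ)).smul hcn (-((k : ℝ) * w)))).add hcn
      (pbad.smul hcn (-((k : ℝ) * w + k ^ 2)))
    have hcntW := (hcn N c).2.2.1 _ (fun z => ((c.ord z W).untop₀ : ℤ)) pG.1
      ((ho N c).2.2.2.2.2.1 W hW) (by
        intro z hz
        have := ordd hr ho hw r Φ w k e he lm nu hc hW hU Nv hNv z hz
        refine le_trans (le_of_eq ?_) this
        ring) R
    rw [pG.2, hj N c W hW R] at hcntW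
    have hht : ∀ m', c.ht m' R = c.cnt (fun z => (|c.del z m'| : ℤ)) R := (hh N c).2 R
    simp only [hht, Curve.cav, zero_sub, Finset.sum_neg_distrib]
    linarith
  -- passage to the limit
  intro δ hδ
  refine Eventually.of_forall fun n => (key n).trans ?_
  have h1 : 0 ≤ δ * c.ch (r.s n) := mul_nonneg hδ.le (r.pos _).le
  linarith

end Pool.Agent.Y155.FA
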